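import Pool.Agent.H63.CG.Core

open Topology Filter

set_option linter.unusedSectionVars false

namespace Pool.Agent.H63.CG

variable {V : Type*} [AddCommGroup V] [TopologicalSpace V] [IsTopologicalAddGroup V] [T2Space V]
  {t : V ≃+ V} {U : ℤ → AddSubgroup V} {p : ℕ}

/-- A continuous action of `V` on `V` by group automorphisms, equivariant under `t`. -/
structure Act (V : Type*) [AddCommGroup V] [TopologicalSpace V] (t : V ≃+ V)
    (γ : V → V →+ V) : Prop where
  zero : ∀ w, γ 0 w = w
  add : ∀ x y w, γ (x + y) w = γ x (γ y w)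
  equi : ∀ x w, γ (t x) (t w) = t (γ x w)
  cont : Continuous (fun q : V × V => γ q.1 q.2)

/-- The closed subgroup generated by all `γ y w - w`. -/
def I (γ : V → V →+ V) (A T : AddSubgroup V) : AddSubgroup V :=
  (AddSubgroup.closure {v | ∃ y ∈ A, ∃ w ∈ T, v = γ y w - w}).topologicalClosure

theorem I_le {γ : V → V →+ V} {A T R : AddSubgroup V} (hR : IsClosed (R : Set V))
    (h : ∀ y ∈ A, ∀ w ∈ T, γ y w - w ∈ R) : I γ A T ≤ R := by
  apply AddSubgroup.topologicalClosure_minimal _ _ hR
  rw [AddSubgroup.closure_le]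
  rintro _ ⟨y, hy, w, hw, rfl⟩
  exact h y hy w hw

theorem mem_I {γ : V → V →+ V} {A T : AddSubgroup V} {y w : V} (hy : y ∈ A) (hw : w ∈ T) :
    γ y w - w ∈ I γ A T :=
  AddSubgroup.le_topologicalClosure _ (AddSubgroup.subset_closure ⟨y, hy, w, hw, rfl⟩)

theorem I_closed {γ : V → V →+ V} {A T : AddSubgroup V} : IsClosed (I γ A T : Set V) :=
  AddSubgroup.isClosed_topologicalClosure _

theorem I_mono {γ : V → V →+ V} {A A' T T' : AddSubgroup V} (hA : A ≤ A') (hT : T ≤ T') :
    I γ A T ≤ I γ A' T' :=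
  I_le I_closed fun _ hy _ hw => mem_I (hA hy) (hT hw)

namespace Act

variable {γ : V → V →+ V} (H : Act V t γ)

include H

theorem comm (x y w : V) : γ x (γ y w) = γ y (γ x w) := by
  rw [← H.add, ← H.add, add_comm]

theorem cont_right (y : V) : Continuous (γ y) :=
  H.cont.comp (Continuous.prodMk_right y)

/-- `γ y - 1` -/
theorem I_comm_le (A B T : AddSubgroup V) : I γ A (I γ B T) ≤ I γ B (I γ A T) := by
  apply I_le I_closed
  intro y hy w hw
  -- the hom D_y
  let D : V →+ V := γ y - AddMonoidHom.id V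
  have hD : Continuous D := by
    have : (D : V → V) = fun v => γ y v - v := by ext v; simp [D]
    rw [this]
    exact (H.cont_right y).sub continuous_id
  have key : I γ B T ≤ (I γ B (I γ A T)).comap D := by
    apply I_le
    · exact I_closed.preimage hD
    · intro z hz v hv
      have e : D (γ z v - v) = γ z (γ y v - v) - (γ y v - v) := by
        simp only [D, AddMonoidHom.sub_apply, AddMonoidHom.id_apply, map_sub]
        rw [H.comm y z v]
      rw [AddSubgroup.mem_comap, e]
      exact mem_I hz (mem_I hy hv)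
  have := key hw
  rw [AddSubgroup.mem_comap] at this
  simpa [D] using this

theorem I_comm (A B T : AddSubgroup V) : I γ A (I γ B T) = I γ B (I γ A T) :=
  le_antisymm (H.I_comm_le A B T) (H.I_comm_le B A T)

variable (F : Filt V t U p)
include F

theorem symm_equi (x w : V) : t.symm (γ x w) = γ (t.symm x) (t.symm w) := by
  rw [AddEquiv.symm_apply_eq, ← H.equi]
  simp

theorem map_I (k n : ℤ) (v : V) :
    t v ∈ I γ (U (k + 1)) (U (n + 1)) ↔ v ∈ I γ (U k) (U n) := by
  constructor
  · intro h
    have key : I γ (U (k + 1)) (U (n + 1)) ≤ (I γ (U k) (U n)).comap t.symm.toAddMonoidHom := by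
      apply I_le
      · exact I_closed.preimage F.tsymm
      · intro y hy w hw
        rw [AddSubgroup.mem_comap]
        change t.symm (γ y w - w) ∈ I γ (U k) (U n)
        rw [map_sub, H.symm_equi F]
        refine mem_I ?_ ?_
        · rw [← F.map]; simpa using hy
        · rw [← F.map]; simpa using hw
    have := key h
    rw [AddSubgroup.mem_comap] at this
    simpa using this
  · intro h
    have key : I γ (U k) (U n) ≤ (I γ (U (k + 1)) (U (n + 1))).comap t.toAddMonoidHom := by
      apply I_le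
      · exact I_closed.preimage F.tcont
      · intro y hy w hw
        rw [AddSubgroup.mem_comap]
        change t (γ y w - w) ∈ I γ (U (k + 1)) (U (n + 1))
        rw [map_sub, ← H.equi]
        exact mem_I ((F.map _ _).2 hy) ((F.map _ _).2 hw)
    exact key h

theorem I_bounded (k n : ℤ) : ∃ m, I γ (U k) (U n) ≤ U m := by
  have hc : IsCompact ((fun q : V × V => γ q.1 q.2 - q.2) '' ((U k : Set V) ×ˢ (U n : Set V))) :=
    ((F.compact k).prod (F.compact n)).image (H.cont.sub continuous_snd)
  obtain ⟨m, hm⟩ := F.bounded_of_isCompact hc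
  refine ⟨m, I_le (F.isClosed m) fun y hy w hw => hm ⟨(y, w), ⟨hy, hw⟩, rfl⟩⟩

theorem I_eq (k n : ℤ) : I γ (U k) (U n) = ⊥ ∨ ∃ j, I γ (U k) (U n) = U j := by
  apply F.eq_of_stable _ I_closed _ (H.I_bounded F k n)
  intro x hx
  exact I_mono (F.anti _) (F.anti _) ((H.map_I F k n x).2 hx)

/-- equivariance for powers of `t` -/
theorem equi_pow (k : ℕ) (x w : V) : γ (t^[k] x) (t^[k] w) = t^[k] (γ x w) := by
  induction k with
  | zero => rfl
  | succ k ih =>
    rw [Function.iterate_succ_apply', Function.iterate_succ_apply',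
      Function.iterate_succ_apply', H.equi, ih]

theorem trivial_of_bot (n : ℤ) (h : I γ (U 0) (U n) = ⊥) : ∀ y w, γ y w = w := by
  intro y w
  obtain ⟨a, ha⟩ := F.cover y
  obtain ⟨b, hb⟩ := F.cover w
  let k : ℕ := (max (-a) (n - b)).toNat
  have hk : max (-a) (n - b) ≤ k := Int.self_le_toNat _
  have h1 : t^[k] y ∈ U 0 := F.antitone (by omega) ((F.map_pow k a y).2 ha)
  have h2 : t^[k] w ∈ U n := F.antitone (by omega) ((F.map_pow k b w).2 hb)
  have h3 := mem_I (γ := γ) h1 h2
  rw [h, AddSubgroup.mem_bot, sub_eq_zero, H.equi_pow F] at h3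
  exact (t.injective.iterate k) h3

/-- continuity and compactness of `U n` : `I (U K) (U n)` tends to zero as `K → ∞`. -/
theorem I_small (n C : ℤ) : ∃ K, I γ (U K) (U n) ≤ U C := by
  have hopen : IsOpen {q : V × V | γ q.1 q.2 - q.2 ∈ U C} :=
    (F.isOpen C).preimage (H.cont.sub continuous_snd)
  obtain ⟨u, v, hu, hv, h0u, hnv, huv⟩ := generalized_tube_lemma (isCompact_singleton (x := (0 : V)))
    (F.compact n) hopen (by
      rintro ⟨y, w⟩ ⟨hy, hw⟩
      simp only [Set.mem_singleton_iff] at hy
      simp [hy, H.zero, (U C).zero_mem])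
  obtain ⟨K, hK⟩ := F.basis u (hu.mem_nhds (h0u rfl))
  refine ⟨K, I_le (F.isClosed C) fun y hy w hw => ?_⟩
  have := @huv (y, w) ⟨hK hy, hnv hw⟩
  exact this

end Act

end Pool.Agent.H63.CG
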