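import Mathlib

namespace Pool.Agent.H63.CG

/-- The combinatorial contradiction. -/
theorem comb_false (β : ℤ → ℤ)
    (mono : ∀ m, β m ≤ β (m + 1))
    (E1 : ∀ n, 1 + β (β n - 1) = β (1 + β (n - 1)))
    (H5 : ∀ C : ℤ, ∃ M : ℤ, ∀ m ≤ M, m + C ≤ β m)
    (H6 : ∀ n, β n ≠ n) : False := by
  have hmono : Monotone β := monotone_int_of_le_succ mono
  -- step A: β m ≥ m + 1
  have hA : ∀ m, m + 1 ≤ β m := by
    by_contra hcon
    push Not at hcon
    obtain ⟨m0, hm0⟩ := hcon
    obtain ⟨M, hM⟩ := H5 1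
    -- least m with β m < m + 1
    obtain ⟨m1, hm1, hmin⟩ := Int.exists_least_of_bdd (P := fun z => β z < z + 1)
      ⟨M, fun z hz => by
        by_contra hlt
        push Not at hlt
        have := hM z (le_of_lt hlt)
        omega⟩ ⟨m0, hm0⟩
    have h1 : β m1 ≠ m1 := H6 m1
    have h2 : ¬ (β (m1 - 1) < (m1 - 1) + 1) := fun h => by
      have := hmin _ h
      omega
    have h3 : β (m1 - 1) ≤ β m1 := hmono (by omega)
    omega
  -- step B : steps at most one
  have hB : ∀ n, β n ≤ β (n - 1) + 1 := by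
    intro n
    by_contra hcon
    push Not at hcon
    have h1 : β (β (n - 1) + 1) ≤ β (β n - 1) := hmono (by omega)
    have h2 := E1 n
    rw [add_comm 1 (β (n-1))] at h2
    omega
  -- f is antitone
  have hf : ∀ m n, m ≤ n → β n - n ≤ β m - m := by
    intro m n hmn
    obtain ⟨k, rfl⟩ := Int.le.dest hmn
    clear hmn
    induction k with
    | zero => simp
    | succ k ih =>
      have := hB (m + (k + 1 : ℕ))
      have e1 : m + ((k + 1 : ℕ) : ℤ) - 1 = m + k := by push_cast; ring
      rw [e1] at this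
      push_cast at this ⊢
      omega
  -- the minimum of f
  obtain ⟨c, ⟨n0, hn0⟩, hc⟩ := Int.exists_least_of_bdd (P := fun z => ∃ n, β n - n = z)
      ⟨1, fun z ⟨n, hn⟩ => by have := hA n; omega⟩ ⟨_, 0, rfl⟩
  have hc' : ∀ n, c ≤ β n - n := fun n => hc _ ⟨n, rfl⟩
  have hc1 : 1 ≤ c := by have := hA n0; omega
  -- smallest n with f n = c
  obtain ⟨n1, hn1, hmin⟩ := Int.exists_least_of_bdd (P := fun z => β z - z = c)
      (by
        obtain ⟨M, hM⟩ := H5 (c + 1)
        exact ⟨M, fun z hz => by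
          by_contra hlt
          push Not at hlt
          have := hM z (le_of_lt hlt)
          omega⟩) ⟨n0, hn0⟩
  have hge : ∀ m, n1 ≤ m → β m = m + c := by
    intro m hm
    have h1 := hf n1 m hm
    have h2 := hc' m
    omega
  have hlt : β (n1 - 1) - (n1 - 1) ≠ c := fun h => by
    have := hmin _ h
    omega
  have h3 := hc' (n1 - 1)
  have h4 : β (n1 - 1) ≤ β n1 := hmono (by omega)
  have h5 : β (n1 - 1) = n1 + c := by omega
  have h6 := E1 n1
  have h7 : β n1 = n1 + c := by omega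
  rw [h5, h7] at h6
  rw [hge (n1 + c - 1) (by omega), hge (1 + (n1 + c)) (by omega)] at h6
  omega

end Pool.Agent.H63.CG
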