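import Pool.Agent.H63.CG.Comb

open Topology Filter

set_option linter.unusedSectionVars false

namespace Pool.Agent.H63.CG

/-- A filtered topological abelian group that looks like `F_p((t))` : `t` shifts the filtration
`U`, the steps of the filtration are simple, all steps are compact. -/
structure Filt (V : Type*) [AddCommGroup V] [TopologicalSpace V] (t : V ≃+ V)
    (U : ℤ → AddSubgroup V) (p : ℕ) : Prop where
  tcont : Continuous t
  tsymm : Continuous t.symm
  anti : ∀ n, U (n + 1) ≤ U n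
  map : ∀ n x, t x ∈ U (n + 1) ↔ x ∈ U n
  isOpen : ∀ n, IsOpen (U n : Set V)
  basis : ∀ s ∈ 𝓝 (0 : V), ∃ n, (U n : Set V) ⊆ s
  compact : ∀ n, IsCompact (U n : Set V)
  cover : ∀ x, ∃ n, x ∈ U n
  simple : ∀ (H : AddSubgroup V) (n : ℤ), U (n + 1) ≤ H → H ≤ U n → H = U (n + 1) ∨ H = U n
  strict : ∀ n, ∃ x ∈ U n, x ∉ U (n + 1)
  char : ∀ x : V, p • x = 0

variable {V : Type*} [AddCommGroup V] [TopologicalSpace V] [IsTopologicalAddGroup V] [T2Space V]
  {t : V ≃+ V} {U : ℤ → AddSubgroup V} {p : ℕ}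

namespace Filt

variable (F : Filt V t U p)

include F

theorem antitone : Antitone U := antitone_int_of_succ_le F.anti

theorem le_iff {m n : ℤ} : U m ≤ U n ↔ n ≤ m := by
  constructor
  · intro h
    by_contra hlt
    push Not at hlt
    obtain ⟨x, hx, hx'⟩ := F.strict m
    exact hx' (F.antitone (show m + 1 ≤ n by omega) (h hx))
  · intro h
    exact F.antitone h

theorem inj {m n : ℤ} (h : U m = U n) : m = n :=
  le_antisymm (F.le_iff.1 h.ge) (F.le_iff.1 h.le)

theorem isClosed (n : ℤ) : IsClosed (U n : Set V) :=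
  (U n).isClosed_of_isOpen (F.isOpen n)

theorem mem_nhds (n : ℤ) : (U n : Set V) ∈ 𝓝 (0 : V) :=
  (F.isOpen n).mem_nhds (U n).zero_mem

theorem exists_notMem {x : V} (hx : x ≠ 0) : ∃ n, x ∉ U n := by
  obtain ⟨n, hn⟩ := F.basis ({x}ᶜ) (isOpen_compl_singleton.mem_nhds (by simpa using hx.symm))
  exact ⟨n, fun h => hn h rfl⟩

theorem map_pow (k : ℕ) (n : ℤ) (x : V) : (t^[k]) x ∈ U (n + k) ↔ x ∈ U n := by
  induction k with
  | zero => simp
  | succ k ih =>
    rw [Function.iterate_succ_apply']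
    push_cast
    rw [← add_assoc, F.map, ih]

/-- Compact sets are bounded. -/
theorem bounded_of_isCompact {s : Set V} (hs : IsCompact s) : ∃ n, s ⊆ (U n : Set V) := by
  obtain ⟨n, hn⟩ := hs.elim_directed_cover (fun n => (U n : Set V)) F.isOpen
    (fun x _ => by
      obtain ⟨n, hn⟩ := F.cover x
      exact Set.mem_iUnion.2 ⟨n, hn⟩)
    (fun i j => ⟨min i j, fun x hx => F.antitone (min_le_left i j) hx,
      fun x hx => F.antitone (min_le_right i j) hx⟩)
  exact ⟨n, hn⟩

/-- A closed `t`-stable bounded subgroup is `⊥` or a step of the filtration. -/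
theorem eq_of_stable (T : AddSubgroup V) (hc : IsClosed (T : Set V)) (hst : ∀ x ∈ T, t x ∈ T)
    (hb : ∃ n, T ≤ U n) : T = ⊥ ∨ ∃ j, T = U j := by
  by_cases hT : T = ⊥
  · exact Or.inl hT
  right
  obtain ⟨x, hxT, hx0⟩ : ∃ x ∈ T, x ≠ 0 := by
    by_contra hcon
    push Not at hcon
    exact hT ((AddSubgroup.eq_bot_iff_forall T).2 hcon)
  obtain ⟨m, hm⟩ := F.exists_notMem hx0
  obtain ⟨j, hj, hmax⟩ := Int.exists_greatest_of_bdd (P := fun z => T ≤ U z)
    ⟨m, fun z hz => by
      by_contra hlt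
      push Not at hlt
      exact hm (F.antitone hlt.le (hz hxT))⟩ hb
  refine ⟨j, le_antisymm hj ?_⟩
  have hnot : ¬ T ≤ U (j + 1) := fun h => by
    have := hmax _ h
    omega
  obtain ⟨w, hwT, hw⟩ := SetLike.not_le_iff_exists.1 hnot
  have hwj : w ∈ U j := hj hwT
  have hTk : ∀ k : ℕ, (t^[k]) w ∈ T := by
    intro k
    induction k with
    | zero => simpa using hwT
    | succ k ih =>
      rw [Function.iterate_succ_apply']
      exact hst _ ih
  have key : ∀ k : ℕ, U (j + k) ≤ T ⊔ U (j + k + 1) := by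
    intro k
    have h1 : (t^[k]) w ∈ U (j + k) := (F.map_pow k j w).2 hwj
    have h2 : (t^[k]) w ∉ U (j + k + 1) := by
      intro h
      apply hw
      rw [← F.map_pow k (j + 1) w]
      rwa [show j + 1 + (k : ℤ) = j + k + 1 by ring]
    rcases F.simple ((T ⊓ U (j + k)) ⊔ U (j + k + 1)) (j + k) le_sup_right
      (sup_le inf_le_right (F.anti _)) with h | h
    · exfalso
      apply h2
      rw [← h]
      exact (le_sup_left : T ⊓ U (j + k) ≤ _) ⟨hTk k, h1⟩
    · calc U (j + k) = (T ⊓ U (j + k)) ⊔ U (j + k + 1) := h.symm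
        _ ≤ T ⊔ U (j + k + 1) := sup_le_sup_right inf_le_left _
  have key2 : ∀ k : ℕ, U j ≤ T ⊔ U (j + k) := by
    intro k
    induction k with
    | zero => simp
    | succ k ih =>
      refine ih.trans (sup_le le_sup_left ((key k).trans ?_))
      push_cast
      rw [← add_assoc]
  intro v hv
  have : v ∈ closure (T : Set V) := by
    rw [mem_closure_iff_nhds_zero]
    intro s hs
    obtain ⟨n, hn⟩ := F.basis s hs
    have h3 := key2 (n - j).toNat hv
    obtain ⟨a, ha, b, hb', hab⟩ := AddSubgroup.mem_sup.1 h3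
    refine ⟨a, ha, ?_⟩
    apply hn
    have : a - v = -b := by rw [← hab]; abel
    rw [this]
    exact (U n).neg_mem (F.antitone (by have := Int.self_le_toNat (n - j); omega) hb')
  rwa [hc.closure_eq] at this

end Filt

end Pool.Agent.H63.CG
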