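import Pool.Agent.H63.CG.Laurent

open Topology Filter HahnSeries

set_option linter.unusedSectionVars false

namespace Pool.Agent.H63.CG

variable {G : Type*} [Group G] [TopologicalSpace G] [IsTopologicalGroup G]
  {N : Subgroup G} [N.Normal] {p : ℕ} [hp : Fact p.Prime]

theorem conj_ker (e : N ≃ₜ* Multiplicative (LaurentSeries (ZMod p))) :
    N ≤ (MulAut.conjNormal (H := N)).ker := by
  intro g hg
  rw [MonoidHom.mem_ker]
  ext n
  have h : (⟨g, hg⟩ : N) * n = n * ⟨g, hg⟩ := by
    apply e.injective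
    rw [map_mul, map_mul, mul_comm]
  have h' := congrArg Subtype.val h
  simp only [Subgroup.coe_mul] at h'
  simp only [MulAut.conjNormal_apply, MulAut.one_apply]
  rw [h', mul_inv_cancel_right]

/-- The action of `G ⧸ N` on the abelian group `N` by conjugation. -/
noncomputable def conjQ (e : N ≃ₜ* Multiplicative (LaurentSeries (ZMod p))) :
    G ⧸ N →* MulAut N :=
  QuotientGroup.lift N (MulAut.conjNormal (H := N)) (conj_ker e)

theorem conjQ_mk (e : N ≃ₜ* Multiplicative (LaurentSeries (ZMod p))) (g : G) (n : N) :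
    ((conjQ e (g : G ⧸ N)) n : G) = g * n * g⁻¹ := by
  rw [conjQ, QuotientGroup.lift_mk, MulAut.conjNormal_apply]

theorem conjQ_cont (e : N ≃ₜ* Multiplicative (LaurentSeries (ZMod p))) :
    Continuous (fun q : (G ⧸ N) × N => conjQ e q.1 q.2) := by
  have hq : IsOpenQuotientMap (Prod.map (QuotientGroup.mk : G → G ⧸ N) (id : N → N)) :=
    QuotientGroup.isOpenQuotientMap_mk.prodMap IsOpenQuotientMap.id
  rw [← hq.continuous_comp_iff]
  rw [continuous_induced_rng]
  have : (Subtype.val ∘ ((fun q : (G ⧸ N) × N => conjQ e q.1 q.2) ∘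
      Prod.map (QuotientGroup.mk : G → G ⧸ N) (id : N → N))) =
      fun q : G × N => q.1 * (q.2 : G) * q.1⁻¹ := by
    ext q
    exact conjQ_mk e q.1 q.2
  rw [this]
  fun_prop

/-- The induced action of `F_p((t))` on `F_p((t))`. -/
noncomputable def gam (e : N ≃ₜ* Multiplicative (LaurentSeries (ZMod p)))
    (f : G ⧸ N ≃ₜ* Multiplicative (LaurentSeries (ZMod p))) (x : KK p) : KK p →+ KK p where
  toFun w := (e (conjQ e (f.symm (Multiplicative.ofAdd x))
    (e.symm (Multiplicative.ofAdd w)))).toAdd
  map_zero' := by simp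
  map_add' a b := by simp [ofAdd_add]

theorem gam_apply (e : N ≃ₜ* Multiplicative (LaurentSeries (ZMod p)))
    (f : G ⧸ N ≃ₜ* Multiplicative (LaurentSeries (ZMod p))) (x w : KK p) :
    gam e f x w = (e (conjQ e (f.symm (Multiplicative.ofAdd x))
      (e.symm (Multiplicative.ofAdd w)))).toAdd := rfl

theorem gam_act (α : G ≃ₜ* G) (hαN : α '' (N : Set G) = N)
    (e : N ≃ₜ* Multiplicative (LaurentSeries (ZMod p)))
    (he : ∀ (n : N) (h : α n ∈ N), (e ⟨α n, h⟩).toAdd = single (1 : ℤ) (1 : ZMod p) * (e n).toAdd)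
    (f : G ⧸ N ≃ₜ* Multiplicative (LaurentSeries (ZMod p)))
    (hf : ∀ g : G, (f (α g : G)).toAdd = single (1 : ℤ) (1 : ZMod p) * (f (g : G ⧸ N)).toAdd) :
    Act (KK p) (tt p) (gam e f) where
  zero := by
    intro w
    rw [gam_apply]
    simp
  add := by
    intro x y w
    simp only [gam_apply, ofAdd_add, map_mul, MulAut.mul_apply, ofAdd_toAdd,
      ContinuousMulEquiv.symm_apply_apply]
  equi := by
    intro x w
    have hmem : ∀ n : N, α n ∈ N := fun n => by
      have : α n ∈ α '' (N : Set G) := ⟨n, n.2, rfl⟩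
      rw [hαN] at this
      exact this
    obtain ⟨g, hg⟩ := QuotientGroup.mk_surjective (f.symm (Multiplicative.ofAdd x))
    set n : N := e.symm (Multiplicative.ofAdd w) with hn
    have h1 : f.symm (Multiplicative.ofAdd (tt p x)) = ((α g : G) : G ⧸ N) := by
      rw [ContinuousMulEquiv.symm_apply_eq]
      apply Multiplicative.toAdd.injective
      rw [hf, hg]
      simp [tt_apply]
    have h2 : e.symm (Multiplicative.ofAdd (tt p w)) = ⟨α n, hmem n⟩ := by
      rw [ContinuousMulEquiv.symm_apply_eq]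
      apply Multiplicative.toAdd.injective
      rw [he, hn]
      simp [tt_apply]
    rw [gam_apply, gam_apply, h1, h2, ← hn, ← hg, tt_apply, ← he _ (hmem _)]
    congr 2
    apply Subtype.ext
    rw [conjQ_mk]
    simp only [conjQ_mk, map_mul, map_inv]
  cont := by
    have h1 : Continuous (fun q : KK p × KK p =>
        ((f.symm (Multiplicative.ofAdd q.1), e.symm (Multiplicative.ofAdd q.2)) :
          (G ⧸ N) × N)) :=
      ((f.symm.continuous.comp (continuous_ofAdd.comp continuous_fst)).prodMk
        (e.symm.continuous.comp (continuous_ofAdd.comp continuous_snd)))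
    exact continuous_toAdd.comp (e.continuous.comp ((conjQ_cont e).comp h1))

end Pool.Agent.H63.CG
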