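import Pool.Agent.H63.CG.Main

open Topology Filter HahnSeries WithZero

set_option linter.unusedSectionVars false

namespace Pool.Agent.H63.CG

/-- `F_p((t))` -/
abbrev KK (p : ℕ) [Fact p.Prime] := LaurentSeries (ZMod p)

variable (p : ℕ) [Fact p.Prime]

/-- The steps of the `t`-adic filtration. -/
def UU (n : ℤ) : AddSubgroup (KK p) where
  carrier := {f | ∀ i < n, f.coeff i = 0}
  zero_mem' := by intro i _; simp
  add_mem' := by
    intro a b ha hb i hi
    rw [HahnSeries.coeff_add, ha i hi, hb i hi, add_zero]
  neg_mem' := by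
    intro a ha i hi
    rw [HahnSeries.coeff_neg, ha i hi, neg_zero]

variable {p}

theorem mem_UU {n : ℤ} {f : KK p} : f ∈ UU p n ↔ ∀ i < n, f.coeff i = 0 := Iff.rfl

theorem mem_UU_iff {n : ℤ} {f : KK p} : f ∈ UU p n ↔ Valued.v f ≤ exp (-n : ℤ) :=
  (LaurentSeries.valuation_le_iff_coeff_lt_eq_zero (ZMod p)).symm

theorem nhds_iff (s : Set (KK p)) : s ∈ 𝓝 (0 : KK p) ↔ ∃ n : ℤ, (UU p n : Set (KK p)) ⊆ s := by
  rw [Valued.mem_nhds_zero]
  constructor
  · rintro ⟨γ, hγ⟩
    let g : ℤᵐ⁰ := MonoidWithZeroHom.ValueGroup₀.embedding γ.1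
    have hg : g ≠ 0 := by
      intro h
      exact γ.ne_zero ((map_eq_zero _).1 h)
    refine ⟨-(log g) + 1, fun f hf => hγ ?_⟩
    have hf' : Valued.v f ≤ exp (-(-(log g) + 1) : ℤ) := mem_UU_iff.1 hf
    show Valued.v.restrict f < γ.1
    rw [Valuation.restrict_lt_iff_lt_embedding]
    refine lt_of_le_of_lt hf' ?_
    change exp (-(-(log g) + 1) : ℤ) < g
    rw [← lt_log_iff_exp_lt hg]
    omega
  · rintro ⟨n, hn⟩
    obtain ⟨x, hx⟩ := LaurentSeries.valuation_surjective (ZMod p) (exp (-n : ℤ))
    have hx0 : Valued.v.restrict x ≠ 0 := by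
      intro h
      have : Valued.v x = 0 := by
        exact MonoidWithZeroHom.ValueGroup₀.restrict₀_eq_zero_iff.1 h
      rw [hx] at this
      exact exp_ne_zero this
    refine ⟨Units.mk0 _ hx0, fun f hf => hn ?_⟩
    have hf' : Valued.v.restrict f < Valued.v.restrict x := hf
    rw [Valuation.restrict_lt_iff] at hf'
    exact mem_UU_iff.2 (hf'.le.trans hx.le)

/-- multiplication by the variable -/
noncomputable def tt (p : ℕ) [Fact p.Prime] : KK p ≃+ KK p where
  toFun f := single (1 : ℤ) (1 : ZMod p) * f
  invFun f := single (-1 : ℤ) (1 : ZMod p) * f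
  left_inv f := by
    simp only [← mul_assoc, single_mul_single]
    simp
  right_inv f := by
    simp only [← mul_assoc, single_mul_single]
    simp
  map_add' := mul_add _

theorem tt_apply (f : KK p) : tt p f = single (1 : ℤ) (1 : ZMod p) * f := rfl

theorem coeff_tt (f : KK p) (i : ℤ) : (tt p f).coeff (i + 1) = f.coeff i := by
  rw [tt_apply, HahnSeries.coeff_single_mul_add, one_mul]

theorem coeff_tt' (f : KK p) (i : ℤ) : (tt p f).coeff i = f.coeff (i - 1) := by
  have := coeff_tt f (i - 1)
  rwa [sub_add_cancel] at this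

theorem UU_isOpen (n : ℤ) : IsOpen (UU p n : Set (KK p)) :=
  (UU p n).isOpen_of_mem_nhds (g := 0) ((nhds_iff _).2 ⟨n, subset_rfl⟩)

theorem UU_anti (n : ℤ) : UU p (n + 1) ≤ UU p n := fun _ hf i hi => hf i (by omega)

theorem mem_UU_succ {n : ℤ} {f : KK p} (hf : f ∈ UU p n) : f ∈ UU p (n + 1) ↔ f.coeff n = 0 := by
  constructor
  · intro h
    exact h n (by omega)
  · intro h i hi
    rcases (Int.lt_add_one_iff.1 hi).lt_or_eq with h' | h'
    · exact hf i h'
    · rw [h', h]

theorem filt (hc : ∃ n, IsCompact (UU p n : Set (KK p))) : Filt (KK p) (tt p) (UU p) p where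
  tcont := continuous_const.mul continuous_id
  tsymm := by
    show Continuous (fun f : KK p => single (-1 : ℤ) (1 : ZMod p) * f)
    exact continuous_const.mul continuous_id
  anti := UU_anti
  map := by
    intro n x
    constructor
    · intro h i hi
      rw [← coeff_tt]
      exact h _ (by omega)
    · intro h i hi
      rw [coeff_tt']
      exact h _ (by omega)
  isOpen := UU_isOpen
  basis := fun s hs => (nhds_iff s).1 hs
  compact := by
    obtain ⟨n0, hn0⟩ := hc
    have hup : ∀ n, IsCompact (UU p n : Set (KK p)) → IsCompact (UU p (n + 1) : Set (KK p)) := by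
      intro n hn
      have hcont : Continuous (fun f : KK p => single (1 : ℤ) (1 : ZMod p) * f) :=
        continuous_const.mul continuous_id
      have := hn.image hcont
      convert this using 1
      ext f
      constructor
      · intro hf
        refine ⟨(tt p).symm f, ?_, (tt p).apply_symm_apply f⟩
        intro i hi
        rw [← coeff_tt, AddEquiv.apply_symm_apply]
        exact hf _ (by omega)
      · rintro ⟨g, hg, rfl⟩ i hi
        change (tt p g).coeff i = 0
        rw [coeff_tt']
        exact hg _ (by omega)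
    have hdown : ∀ n, IsCompact (UU p n : Set (KK p)) → IsCompact (UU p (n - 1) : Set (KK p)) := by
      intro n hn
      have hcont : Continuous (fun f : KK p => single (-1 : ℤ) (1 : ZMod p) * f) :=
        continuous_const.mul continuous_id
      have := hn.image hcont
      convert this using 1
      ext f
      constructor
      · intro hf
        refine ⟨tt p f, ?_, (tt p).symm_apply_apply f⟩
        intro i hi
        rw [coeff_tt']
        exact hf _ (by omega)
      · rintro ⟨g, hg, rfl⟩ i hi
        change ((tt p).symm g).coeff i = 0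
        rw [← coeff_tt, AddEquiv.apply_symm_apply]
        exact hg _ (by omega)
    intro n
    exact Int.inductionOn' n n0 hn0 (fun k _ ih => hup k ih) (fun k _ ih => hdown k ih)
  cover := by
    intro x
    exact ⟨x.order, fun i hi => HahnSeries.coeff_eq_zero_of_lt_order hi⟩
  simple := by
    intro H n h1 h2
    by_cases h : H ≤ UU p (n + 1)
    · left; exact le_antisymm h h1
    right
    refine le_antisymm h2 ?_
    obtain ⟨w, hwH, hw⟩ := SetLike.not_le_iff_exists.1 h
    intro f hf
    have hw1 := h2 hwH
    have hw0 : w.coeff n ≠ 0 := fun h0 => hw ((mem_UU_succ hw1).2 h0)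
    -- f - c w ∈ U (n+1)
    obtain ⟨c, hc⟩ : ∃ c : ℕ, (c : ZMod p) * w.coeff n = f.coeff n := by
      refine ⟨(f.coeff n / w.coeff n).val, ?_⟩
      rw [ZMod.natCast_zmod_val, div_mul_cancel₀ _ hw0]
    have h3 : f - c • w ∈ UU p (n + 1) := by
      rw [mem_UU_succ ((UU p n).sub_mem hf ((UU p n).nsmul_mem hw1 c))]
      rw [HahnSeries.coeff_sub, HahnSeries.coeff_nsmul]
      simp [← hc]
    have := H.add_mem (h1 h3) (H.nsmul_mem hwH c)
    simpa using this
  strict := by
    intro n
    refine ⟨single n 1, ?_, ?_⟩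
    · intro i hi
      rw [HahnSeries.coeff_single_of_ne (by omega)]
    · intro h
      have := h n (by omega)
      simp at this
  char := by
    intro x
    ext i
    rw [HahnSeries.coeff_nsmul]
    simp

end Pool.Agent.H63.CG
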