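import Pool.Agent.H63.CG.Act

open Topology Filter

set_option linter.unusedSectionVars false

namespace Pool.Agent.H63.CG

variable {V : Type*} [AddCommGroup V] [TopologicalSpace V] [IsTopologicalAddGroup V] [T2Space V]
  {t : V ≃+ V} {U : ℤ → AddSubgroup V} {p : ℕ}

theorem Filt.charP_end [hp : Fact p.Prime] (F : Filt V t U p) : CharP (AddMonoid.End V) p := by
  have hnt : Nontrivial V := by
    obtain ⟨x, hx, hx'⟩ := F.strict 0
    exact ⟨⟨x, 0, fun h => hx' (h ▸ (U (0 + 1)).zero_mem)⟩⟩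
  have hnt2 : Nontrivial (AddMonoid.End V) := by
    obtain ⟨x, hx⟩ := exists_ne (0 : V)
    exact ⟨⟨1, 0, fun h => hx (by simpa using DFunLike.congr_fun h x)⟩⟩
  have h0 : (p : AddMonoid.End V) = 0 := by
    ext v
    simp [F.char]
  have h1 : ringChar (AddMonoid.End V) ∣ p := ringChar.dvd h0
  rcases (Nat.dvd_prime hp.out).1 h1 with h | h
  · exact absurd h CharP.ringChar_ne_one
  · exact ringChar.of_eq h

variable {γ : V → V →+ V}

/-- `γ s` as an element of the endomorphism ring -/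
def En (γ : V → V →+ V) (s : V) : AddMonoid.End V := γ s

theorem En_apply (γ : V → V →+ V) (s v : V) : En γ s v = γ s v := rfl

theorem Act.pow_eq (H : Act V t γ) (s : V) (k : ℕ) :
    (En γ s) ^ k = (En γ (k • s)) := by
  induction k with
  | zero =>
    ext v
    rw [pow_zero, zero_smul, En_apply, H.zero]
    rfl
  | succ k ih =>
    rw [pow_succ', ih]
    ext v
    rw [succ_nsmul']
    exact (H.add _ _ _).symm

theorem Act.nilp [hp : Fact p.Prime] (H : Act V t γ) (F : Filt V t U p) (s : V) :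
    ((En γ s) - 1) ^ p = 0 := by
  have := F.charP_end
  rw [sub_pow_char_of_commute p (Commute.one_right _), H.pow_eq, F.char, one_pow, sub_eq_zero]
  ext v
  exact H.zero v

/-- nilpotent Nakayama -/
theorem nakayama (X : AddMonoid.End V) {k : ℕ} (hX : X ^ k = 0) (T W : AddSubgroup V)
    (hW : ∀ w ∈ W, X w ∈ W) (h : ∀ w ∈ T, ∃ u ∈ T, w - X u ∈ W) : T ≤ W := by
  have hWk : ∀ j : ℕ, ∀ w ∈ W, (X ^ j) w ∈ W := by
    intro j
    induction j with
    | zero => intro w hw; simpa using hw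
    | succ j ih =>
      intro w hw
      rw [pow_succ]
      exact ih _ (hW w hw)
  have key : ∀ j : ℕ, ∀ w ∈ T, ∃ u ∈ T, w - (X ^ j) u ∈ W := by
    intro j
    induction j with
    | zero => intro w hw; exact ⟨w, hw, by simp [W.zero_mem]⟩
    | succ j ih =>
      intro w hw
      obtain ⟨u, hu, hwu⟩ := ih w hw
      obtain ⟨u', hu', huu'⟩ := h u hu
      refine ⟨u', hu', ?_⟩
      have e : w - (X ^ (j + 1)) u' = (w - (X ^ j) u) + (X ^ j) (u - X u') := by
        rw [pow_succ, map_sub]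
        change w - (X ^ j) (X u') = _
        abel
      rw [e]
      exact W.add_mem hwu (hWk j _ huu')
  intro w hw
  obtain ⟨u, -, hu⟩ := key k w hw
  simpa [hX] using hu

theorem Act.nakayama [hp : Fact p.Prime] (H : Act V t γ) (F : Filt V t U p) (T A : AddSubgroup V)
    (hT : ∀ y ∈ A, ∀ w ∈ T, γ y w ∈ T) (S : Finset V) :
    (∀ s ∈ S, s ∈ A) → ∀ W : AddSubgroup V, (∀ y ∈ A, ∀ w ∈ W, γ y w ∈ W) →
      T ≤ (⨆ s ∈ S, T.map ((En γ s) - 1 : AddMonoid.End V)) ⊔ W →
      T ≤ W := by
  classical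
  induction S using Finset.induction_on with
  | empty =>
    intro _ W _ h
    simpa using h
  | insert a S ha ih =>
    intro hS W hW h
    have hS' : ∀ s ∈ S, s ∈ A := fun s hs => hS s (Finset.mem_insert_of_mem hs)
    apply ih hS' W hW
    set Q := (⨆ s ∈ S, T.map ((En γ s) - 1 : AddMonoid.End V)) ⊔ W with hQ
    have hQinv : ∀ y ∈ A, Q ≤ Q.comap (γ y) := by
      intro y hy
      rw [hQ]
      refine sup_le (iSup₂_le fun s hs => ?_) ?_
      · rintro _ ⟨v, hv, rfl⟩
        rw [AddSubgroup.mem_comap]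
        refine (le_sup_left : _ ≤ Q) ?_
        refine AddSubgroup.mem_iSup_of_mem s (AddSubgroup.mem_iSup_of_mem hs ?_)
        refine ⟨γ y v, hT y hy v hv, ?_⟩
        change γ s (γ y v) - γ y v = γ y (γ s v - v)
        rw [map_sub, H.comm]
      · intro w hw
        rw [AddSubgroup.mem_comap]
        exact (le_sup_right : _ ≤ Q) (hW y hy w hw)
    refine CG.nakayama ((En γ a) - 1) (H.nilp F a) T Q ?_ ?_
    · intro w hw
      exact Q.sub_mem (hQinv a (hS a (Finset.mem_insert_self _ _)) hw) hw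
    · intro w hw
      have h1 := h hw
      rw [Finset.iSup_insert, sup_assoc] at h1
      obtain ⟨x, ⟨u, hu, rfl⟩, q, hq, hxq⟩ := AddSubgroup.mem_sup.1 h1
      refine ⟨u, hu, ?_⟩
      rw [← hxq]
      have e : ((En γ a - 1) u : V) + q - (En γ a - 1) u = q := by abel
      rw [← e] at hq
      exact hq

theorem Act.I_ne [hp : Fact p.Prime] (H : Act V t γ) (F : Filt V t U p) (n : ℤ) :
    I γ (U 0) (U n) ≠ U n := by
  intro hI
  have hinv : ∀ y ∈ U 0, ∀ w ∈ U n, γ y w ∈ U n := by
    intro y hy w hw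
    have h1 : γ y w - w ∈ U n := by
      rw [← hI]; exact mem_I hy hw
    simpa using (U n).add_mem h1 hw
  -- the subgroup U'
  let U' : AddSubgroup V :=
    { carrier := {w | w ∈ U n ∧ ∀ y ∈ U 0, γ y w ∈ U (n + 1)}
      zero_mem' := ⟨(U n).zero_mem, fun y _ => by simp [(U (n + 1)).zero_mem]⟩
      add_mem' := by
        rintro a b ⟨ha, ha'⟩ ⟨hb, hb'⟩
        exact ⟨(U n).add_mem ha hb, fun y hy => by
          rw [map_add]; exact (U (n + 1)).add_mem (ha' y hy) (hb' y hy)⟩
      neg_mem' := by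
        rintro a ⟨ha, ha'⟩
        exact ⟨(U n).neg_mem ha, fun y hy => by
          rw [map_neg]; exact (U (n + 1)).neg_mem (ha' y hy)⟩ }
  have hU'inv : ∀ y ∈ U 0, ∀ w ∈ U', γ y w ∈ U' := by
    rintro y hy w ⟨hw, hw'⟩
    refine ⟨hinv y hy w hw, fun z hz => ?_⟩
    rw [← H.add]
    exact hw' _ ((U 0).add_mem hz hy)
  have hU'le : U' ≤ U (n + 1) := by
    rintro w ⟨hw, hw'⟩
    have := hw' 0 (U 0).zero_mem
    rwa [H.zero] at this
  -- U' contains a step of the filtration
  obtain ⟨m', hm'⟩ : ∃ m', U m' ≤ U' := by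
    have hopen : IsOpen {q : V × V | γ q.1 q.2 ∈ U (n + 1)} := (F.isOpen _).preimage H.cont
    obtain ⟨u, v, hu, hv, h0u, hnv, huv⟩ := generalized_tube_lemma (F.compact 0)
      (isCompact_singleton (x := (0 : V))) hopen (by
        rintro ⟨y, w⟩ ⟨hy, hw⟩
        simp only [Set.mem_singleton_iff] at hw
        simp [hw, (U (n + 1)).zero_mem])
    obtain ⟨K, hK⟩ := F.basis v (hv.mem_nhds (hnv rfl))
    refine ⟨max K n, fun w hw => ⟨F.antitone (le_max_right K n) hw, fun y hy => ?_⟩⟩
    exact @huv (y, w) ⟨h0u hy, hK (F.antitone (le_max_left K n) hw)⟩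
  obtain ⟨K, hK⟩ := H.I_small F n m'
  -- finite cover of U 0
  obtain ⟨S, hS, hcov⟩ := (F.compact 0).elim_nhds_subcover (fun x => {y | y - x ∈ U K})
    (fun x _ => by
      apply IsOpen.mem_nhds
      · exact (F.isOpen K).preimage (continuous_id.sub continuous_const)
      · simp [(U K).zero_mem])
  have hUn : U n ≤ U' := by
    refine H.nakayama F (U n) (U 0) hinv S hS U' hU'inv ?_
    set R := (⨆ s ∈ S, (U n).map ((En γ s) - 1 : AddMonoid.End V)) ⊔ U'
      with hR
    have hRopen : IsOpen (R : Set V) :=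
      AddSubgroup.isOpen_mono (hm'.trans le_sup_right) (F.isOpen m')
    have hRc : IsClosed (R : Set V) := R.isClosed_of_isOpen hRopen
    conv_lhs => rw [← hI]
    apply I_le hRc
    intro y hy w hw
    obtain ⟨s, hs, hys⟩ := Set.mem_iUnion₂.1 (hcov hy)
    have hys' : y - s ∈ U K := hys
    have hsU : s ∈ U 0 := hS s hs
    have e : γ y w - w = γ s (γ (y - s) w - w) + (γ s w - w) := by
      rw [map_sub, ← H.add, add_sub_cancel]
      abel
    rw [e]
    apply R.add_mem
    · exact (le_sup_right : _ ≤ R) (hU'inv s hsU _ (hm' (hK (mem_I hys' hw))))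
    · refine (le_sup_left : _ ≤ R) (AddSubgroup.mem_iSup_of_mem s
        (AddSubgroup.mem_iSup_of_mem hs ?_))
      exact ⟨w, hw, rfl⟩
  obtain ⟨x, hx, hx'⟩ := F.strict n
  exact hx' (hU'le (hUn hx))

theorem Act.I_shift (H : Act V t γ) (F : Filt V t U p) {n j : ℤ} (h : I γ (U 0) (U n) = U j)
    (k : ℕ) : I γ (U k) (U (n + k)) = U (j + k) := by
  induction k with
  | zero => simpa using h
  | succ k ih =>
    ext v
    obtain ⟨v, rfl⟩ := t.surjective v
    have e1 : ((k + 1 : ℕ) : ℤ) = (k : ℤ) + 1 := by push_cast; ring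
    rw [e1, ← add_assoc, ← add_assoc, H.map_I F, F.map, ih]

/-- **Main theorem**: the action is trivial. -/
theorem Act.trivial [hp : Fact p.Prime] (H : Act V t γ) (F : Filt V t U p) :
    ∀ y w, γ y w = w := by
  by_contra hcon
  have h1 : ∀ n, ∃ j, I γ (U 0) (U n) = U j := by
    intro n
    rcases H.I_eq F 0 n with h | h
    · exact absurd (H.trivial_of_bot F n h) hcon
    · exact h
  choose β hβ using h1
  refine comb_false β ?_ ?_ ?_ ?_
  · intro m
    rw [← F.le_iff, ← hβ, ← hβ]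
    exact I_mono le_rfl (F.anti m)
  · intro n
    apply F.inj
    have e1 : I γ (U 1) (I γ (U 0) (U n)) = U (1 + β (β n - 1)) := by
      rw [hβ]
      have := H.I_shift F (hβ (β n - 1)) 1
      simpa [add_comm] using this
    have e2 : I γ (U 0) (I γ (U 1) (U n)) = U (β (1 + β (n - 1))) := by
      have := H.I_shift F (hβ (n - 1)) 1
      simp only [Nat.cast_one, sub_add_cancel] at this
      rw [this, hβ, add_comm]
    rw [← e1, ← e2, H.I_comm]
  · intro C
    obtain ⟨K, hK⟩ := H.I_small F 0 C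
    refine ⟨min (-K) 0, fun m hm => ?_⟩
    have e := H.I_shift F (hβ m) (-m).toNat
    have hm0 : ((-m).toNat : ℤ) = -m := Int.toNat_of_nonneg (by omega)
    rw [hm0, add_neg_cancel] at e
    have h2 : U (β m + -m) ≤ U C := by
      rw [← e]
      exact (I_mono (F.antitone (by omega)) le_rfl).trans hK
    rw [F.le_iff] at h2
    omega
  · intro n h
    apply H.I_ne F n
    rw [hβ, h]

end Pool.Agent.H63.CG
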